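import Pool.Agent.W326.DU.Stm

set_option autoImplicit false

namespace Pool.Agent.W683.DU

open Pool.Agent.W326.DU

theorem r1 {V M : Type} [AddCommGroup M] {ad : V → V → Prop} {S : V → M →+ M} (h : Reg ad S)
    (v : V) (x : M) (hx : S v x = 0) : x = 0 := by
  have h1 := h.star ∅ v (by simp) x (by rw [hx]; exact AddSubgroup.zero_mem _)
  have h2 : Im S {w | w ∈ (∅ : Set V) ∧ ad w v} = ⊥ := by
    unfold Im
    simp
  rw [h2] at h1
  simpa using h1

theorem r1' {V M : Type} [AddCommGroup M] {ad : V → V → Prop} {S : V → M →+ M} (h : Reg ad S)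
    (v : V) {x y : M} (hx : S v x = S v y) : x = y := by
  have : S v (x - y) = 0 := by rw [map_sub, hx, sub_self]
  exact sub_eq_zero.1 (r1 h v _ this)

theorem r2 {V M : Type} [AddCommGroup M] {ad : V → V → Prop} {S : V → M →+ M} (h : Reg ad S)
    {a b : V} (hab : ad a b) (hne : a ≠ b) {x y : M} (hx : S a x = S b y) :
    ∃ z, x = S b z ∧ y = S a z := by
  have h0 : Im S {b} = (S b).range := by
    unfold Im; simp
  have h1 := h.star {b} a (by simpa using hne) x (by
    rw [h0, hx]; exact ⟨y, rfl⟩)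
  have h2 : Im S {w | w ∈ ({b} : Set V) ∧ ad w a} ≤ (S b).range := by
    unfold Im
    refine iSup₂_le ?_
    rintro s ⟨hs, -⟩
    rw [Set.mem_singleton_iff.1 hs]
  obtain ⟨z, hz⟩ := h2 h1
  refine ⟨z, hz.symm, ?_⟩
  apply r1' h b
  rw [← hx, ← hz, h.comm a b hab]

theorem adj_irrefl : ∀ a b : Fin 10, adj a b → a ≠ b := by decide

theorem th : PropCOHA := by
  intro M _ S T hR hT
  refine ⟨fun v x hx => r1 hR v x hx, ?_⟩
  intro x y he hg
  have key : ∀ i : Fin 26, S (eL i).1 (x (eL i).2) = S (eL i).2 (x (eL i).1) := by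
    intro i
    exact sub_eq_zero.1 (he i)
  have hadj : ∀ i : Fin 26, adj (eL i).1 (eL i).2 := fun i => ⟨i, Or.inl rfl⟩
  have step : ∀ (i : Fin 26) (m : M), x (eL i).1 = S (eL i).1 m → x (eL i).2 = S (eL i).2 m := by
    intro i m hm
    obtain ⟨z, hz1, hz2⟩ := r2 hR (hadj i) (adj_irrefl _ _ (hadj i)) (key i)
    have : z = m := r1' hR (eL i).1 (hz2.symm.trans hm)
    rw [hz1, this]
  obtain ⟨m, hm1, hm0⟩ := r2 hR (hadj 0) (adj_irrefl _ _ (hadj 0)) (key 0)
  have h0 : x 0 = S 0 m := hm0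
  have h1 : x 1 = S 1 m := hm1
  have h3 : x 3 = S 3 m := step 1 m h0
  have h5 : x 5 = S 5 m := step 2 m h0
  have h6 : x 6 = S 6 m := step 3 m h0
  have h8 : x 8 = S 8 m := step 4 m h0
  have h2 : x 2 = S 2 m := step 5 m h1
  have h4 : x 4 = S 4 m := step 6 m h1
  have h9 : x 9 = S 9 m := step 8 m h1
  have h7 : x 7 = S 7 m := step 11 m h2
  have hx : ∀ v, x v = S v m := by
    intro v
    fin_cases v
    · exact h0
    · exact h1
    · exact h2
    · exact h3
    · exact h4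
    · exact h5
    · exact h6
    · exact h7
    · exact h8
    · exact h9
  refine ⟨m, hx, ?_⟩
  have hg0 := hg 0
  unfold g1 at hg0
  rw [hx, hx, hT, ← map_sub, ← map_sub] at hg0
  have := r1 hR _ _ hg0
  exact (sub_eq_zero.1 this).symm

end Pool.Agent.W683.DU
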