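import Pool.Agent.W326.DU.Stm

set_option autoImplicit false

namespace Pool.Agent.W683.DU.FA

open Pool.Agent.W326.DU

theorem rm_apply' {G : Type} [Group G] (b x : ZG G) : rm ℤ b x = x * b := rfl

theorem augm_mul {G : Type} [Group G] (x y : ZG G) : augm G (x * y) = augm G x * augm G y := by
  simp [augm]

theorem augm_of {G : Type} [Group G] (g : G) : augm G (MonoidAlgebra.of ℤ G g) = 1 := by
  simp [augm]

theorem augm_one {G : Type} [Group G] : augm G (1 : ZG G) = 1 := by
  simp [augm]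

theorem fa (h1 : PropRESA) (h2 : PropDD) (h3 : PropAUG) : PropFA := by
  intro G _ s t h
  have hR : Reg adj (Rf ℤ s) := h.reg ℤ
  have hT : ∀ k x, Rf ℤ s (mm k) (Tr t x) = Tr t (Rf ℤ s (pp k) x) := by
    intro k x
    have hc := h.conj k
    simp only [Rf, Tr, rm_apply']
    have e1 : MonoidAlgebra.of ℤ G t * MonoidAlgebra.of ℤ G (s (mm k))
        = MonoidAlgebra.of ℤ G (s (pp k)) * MonoidAlgebra.of ℤ G t := by
      rw [← map_mul, ← map_mul, hc]
    rw [mul_sub, mul_one, mul_assoc, e1, mul_sub, mul_one, sub_mul, mul_assoc]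
  have hst : ∀ x, Tr t x - x ∈ Im (Rf ℤ s) Set.univ → x ∈ Im (Rf ℤ s) (Set.range pp) :=
    fun x hx => h.star_t ℤ x hx
  obtain ⟨E1, E2, E3⟩ := h1 (ZG G) (Rf ℤ s) (Tr t) hR hT hst
  obtain ⟨D1, D2⟩ := h2 (ZG G) (Rf ℤ s) (Tr t) hR.comm hT
  have hd0 : ∀ p, d0 s t p = c1 (Rf ℤ s) p.1 + (Tr t p.2 - p.2) := fun p => rfl
  have hd1 : ∀ p, d1 s t p = (fun b => c2 (Rf ℤ s) p.1 b + f1 (Tr t) p.2 b, - k1 (Rf ℤ s) p.2) :=
    fun p => rfl
  have hd2 : ∀ p, d2 s t p = (fun i => c3 (Rf ℤ s) p.1 i + f2 (Tr t) p.2 i,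
      fun k => - k2 (Rf ℤ s) p.2 k) := fun p => rfl
  refine ⟨?_, ?_, ?_, ?_⟩
  · intro x
    constructor
    · intro hx
      have h4 := h3 G (Set.range s ∪ {t}) h.gen x hx
      have h5 : IL ℤ (Set.range s ∪ {t}) ≤ LinearMap.range (d0 s t) := by
        unfold IL
        rw [Submodule.span_le]
        rintro _ ⟨g, (⟨v, rfl⟩ | hg), rfl⟩
        · refine ⟨(Pi.single v 1, 0), ?_⟩
          rw [hd0]
          simp only [c1, map_zero, sub_zero, add_zero]
          rw [Finset.sum_eq_single v]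
          · simp [Rf, rm_apply']
          · intro b _ hb
            simp [Pi.single_eq_of_ne hb]
          · intro hv
            exact absurd (Finset.mem_univ v) hv
        · rw [Set.mem_singleton_iff.1 hg]
          refine ⟨(0, 1), ?_⟩
          rw [hd0]
          simp [c1, Tr, rm_apply']
      exact h5 h4
    · rintro ⟨p, rfl⟩
      rw [hd0, map_add, map_sub]
      simp only [c1, map_sum, Rf, Tr, rm_apply', augm_mul, map_sub, augm_of, augm_one, sub_self,
        mul_zero, Finset.sum_const_zero, mul_one, add_zero]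
  · intro p
    constructor
    · intro hp
      obtain ⟨y, w, hy, hw⟩ := E1 p.1 p.2 hp
      refine ⟨(y, w), ?_⟩
      rw [hd1]
      exact Prod.ext (funext hy) hw
    · rintro ⟨q, rfl⟩
      rw [hd0, hd1]
      exact D1 q.1 q.2
  · intro p
    constructor
    · intro hp
      rw [hd1] at hp
      have ha := congrArg Prod.fst hp
      have hb := congrArg Prod.snd hp
      obtain ⟨z, u, hz, hu⟩ := E2 p.1 p.2 (fun b => congrFun ha b) (neg_eq_zero.1 hb)
      refine ⟨(z, u), ?_⟩
      rw [hd2]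
      exact Prod.ext (funext hz) (funext hu)
    · rintro ⟨q, rfl⟩
      rw [hd1, hd2]
      obtain ⟨ha, hb⟩ := D2 q.1 q.2
      exact Prod.ext (funext ha) (neg_eq_zero.2 hb)
  · intro p hp
    rw [hd2] at hp
    have ha := congrArg Prod.fst hp
    have hb := congrArg Prod.snd hp
    obtain ⟨hz, hu⟩ := E3 p.1 p.2 (fun i => congrFun ha i)
      (fun k => neg_eq_zero.1 (congrFun hb k))
    exact Prod.ext (funext hz) (funext hu)

theorem th (h1 : PropRESA) (h2 : PropDD) (h3 : PropAUG) : PropFA := fa h1 h2 h3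

end Pool.Agent.W683.DU.FA
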